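import Pool.Agent.Helper40.Dehn

set_option autoImplicit false

namespace Pool.Agent.Results.MP_6c15a0_gt.DehnZeroFamily

/-- For every real s > 4 there is a tetrahedron v 0, v 1, v 2, v 3 with edge lengths
s + 1, s - 1, 6, s, s + 1, s - 1 (edges 01, 02, 03, 12, 13, 23), and its Dehn invariant is 0. -/
theorem result (s : ℝ) (hs : 4 < s) :
    (∃ v : Fin 4 → EuclideanSpace ℝ (Fin 3), AffineIndependent ℝ v ∧
      dist (v 0) (v 1) = s + 1 ∧ dist (v 0) (v 2) = s - 1 ∧ dist (v 0) (v 3) = 6 ∧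
      dist (v 1) (v 2) = s ∧ dist (v 1) (v 3) = s + 1 ∧ dist (v 2) (v 3) = s - 1) ∧
    ∀ v : Fin 4 → EuclideanSpace ℝ (Fin 3),
      dist (v 0) (v 1) = s + 1 → dist (v 0) (v 2) = s - 1 → dist (v 0) (v 3) = 6 →
      dist (v 1) (v 2) = s → dist (v 1) (v 3) = s + 1 → dist (v 2) (v 3) = s - 1 →
      Pool.Agent.Helper40.Tet.dehn v = 0 :=
  ⟨Pool.Agent.Helper40.Tet.exists_family s hs, fun v h01 h02 h03 h12 h13 h23 =>
    Pool.Agent.Helper40.Tet.dehn_family s hs v h01 h02 h03 h12 h13 h23⟩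

end Pool.Agent.Results.MP_6c15a0_gt.DehnZeroFamily
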