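import Pool.Agent.Helper40.Dehn2

set_option autoImplicit false

namespace Pool.Agent.Results.MP_6c15a0_gt.SymmetricClass

/-- A non-degenerate tetrahedron with vertices v 0, v 1, v 2, v 3 that has a symmetry of order at
least 3 (a vertex permutation σ with σ² ≠ 1 preserving all distances) has Dehn invariant 0 if and
only if it is, for a suitable labelling of its vertices, the disphenoid whose four edges
AB, BC, CD, AD have length √3·c and whose two opposite edges AC, BD have length 2c. -/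
theorem result (v : Fin 4 → EuclideanSpace ℝ (Fin 3)) (hv : AffineIndependent ℝ v)
    (σ : Equiv.Perm (Fin 4)) (hσ : ∀ i j, dist (v (σ i)) (v (σ j)) = dist (v i) (v j))
    (h3 : σ * σ ≠ 1) :
    Pool.Agent.Helper40.Tet.dehn v = 0 ↔ ∃ (τ : Equiv.Perm (Fin 4)) (c : ℝ), 0 < c ∧
      dist (v (τ 0)) (v (τ 1)) = √3 * c ∧ dist (v (τ 1)) (v (τ 2)) = √3 * c ∧
      dist (v (τ 2)) (v (τ 3)) = √3 * c ∧ dist (v (τ 0)) (v (τ 3)) = √3 * c ∧
      dist (v (τ 0)) (v (τ 2)) = 2 * c ∧ dist (v (τ 1)) (v (τ 3)) = 2 * c :=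
  Pool.Agent.Helper40.Tet.symmetric_class v hv σ hσ h3

end Pool.Agent.Results.MP_6c15a0_gt.SymmetricClass
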